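import Mathlib

/-!
# A cone of codimension at most `k` meets every linear space of dimension `k + 1` outside `0`

`I` is an ideal of `ℂ[x_σ]` closed under homogeneous components.  If
`card σ ≤ ringKrullDim (ℂ[x_σ] / I) + k`, then the zero set of `I` contains a non zero vector of
the span of any `k + 1` linearly independent vectors.
-/

set_option autoImplicit false

namespace Pool.Agent.H8.RK

open MvPolynomial

section

variable {σ τ : Type} [Fintype σ] [Fintype τ]

/-- the component of degree `M + 1` of a multiple of a linear form -/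
theorem comp_mul_lin (M : ℕ) (c l : MvPolynomial σ ℂ) (hl : l.IsHomogeneous 1) :
    homogeneousComponent (M + 1) (c * l) = homogeneousComponent M c * l := by
  conv_lhs => rw [← sum_homogeneousComponent c, Finset.sum_mul, map_sum]
  have h1 : ∀ i ∈ Finset.range (c.totalDegree + 1),
      homogeneousComponent (M + 1) (homogeneousComponent i c * l) =
        if M = i then homogeneousComponent M c * l else 0 := by
    intro i _
    have h2 : homogeneousComponent i c * l ∈ homogeneousSubmodule σ ℂ (i + 1) :=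
      (homogeneousComponent_isHomogeneous i c).mul hl
    rw [homogeneousComponent_of_mem h2]
    by_cases h : M = i
    · subst h
      simp
    · rw [if_neg (by omega), if_neg h]
  rw [Finset.sum_congr rfl h1, Finset.sum_ite_eq]
  split_ifs with h3
  · rfl
  · rw [Finset.mem_range, not_lt] at h3
    rw [homogeneousComponent_eq_zero M c (by omega), zero_mul]

variable (I : Ideal (MvPolynomial σ ℂ)) (l : τ → MvPolynomial σ ℂ)

/-- the map of the polynomial ring in the linear forms `l` to the coordinate ring -/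
noncomputable def phi0 : MvPolynomial τ ℂ →+* (MvPolynomial σ ℂ ⧸ I) :=
  (Ideal.Quotient.mk I).comp (aeval l : MvPolynomial τ ℂ →ₐ[ℂ] MvPolynomial σ ℂ).toRingHom

theorem mem_span_of_homogeneous (hI : ∀ f ∈ I, ∀ j, homogeneousComponent j f ∈ I)
    (hl : ∀ j, (l j).IsHomogeneous 1) (M : ℕ)
    (hM : ∀ i : σ, (X i : MvPolynomial σ ℂ) ^ (M + 1) ∈ I ⊔ Ideal.span (Set.range l)) :
    letI := (phi0 I l).toAlgebra
    ∀ (n : ℕ) (p : MvPolynomial σ ℂ), p.IsHomogeneous n →
      Ideal.Quotient.mk I p ∈ Submodule.span (MvPolynomial τ ℂ)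
        (Set.range fun u : σ → Fin (M + 1) =>
          Ideal.Quotient.mk I (∏ i, (X i : MvPolynomial σ ℂ) ^ (u i : ℕ))) := by
  letI := (phi0 I l).toAlgebra
  have hsmul : ∀ (a : MvPolynomial τ ℂ) (b : MvPolynomial σ ℂ),
      a • (Ideal.Quotient.mk I b) = Ideal.Quotient.mk I (aeval l a * b) := by
    intro a b
    rw [Algebra.smul_def, map_mul]
    rfl
  -- reduction of the power of a variable
  have hred : ∀ i : σ, ∃ a ∈ I, ∃ q : τ → MvPolynomial σ ℂ, (∀ j, (q j).IsHomogeneous M) ∧
      (X i : MvPolynomial σ ℂ) ^ (M + 1) = a + ∑ j, q j * l j := by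
    intro i
    obtain ⟨a, ha, b, hb, hab⟩ := Submodule.mem_sup.1 (hM i)
    obtain ⟨c, hc⟩ := Ideal.mem_span_range_iff_exists_fun.1 hb
    refine ⟨homogeneousComponent (M + 1) a, hI a ha _, fun j => homogeneousComponent M (c j),
      fun j => homogeneousComponent_isHomogeneous _ _, ?_⟩
    have h1 : (X i : MvPolynomial σ ℂ) ^ (M + 1) =
        homogeneousComponent (M + 1) ((X i : MvPolynomial σ ℂ) ^ (M + 1)) := by
      rw [homogeneousComponent_eq_self]
      have := (isHomogeneous_X ℂ i).pow (M + 1)
      rwa [one_mul] at this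
    rw [h1, ← hab, ← hc, map_add, map_sum]
    congr 1
    exact Finset.sum_congr rfl fun j _ => comp_mul_lin M (c j) (l j) (hl j)
  intro n
  induction n using Nat.strong_induction_on with
  | _ n ih =>
    intro p hp
    rw [← MvPolynomial.support_sum_monomial_coeff p, map_sum]
    refine Submodule.sum_mem _ fun s hs => ?_
    have hdeg : s.degree = n := by
      have h2 := hp (MvPolynomial.mem_support_iff.1 hs)
      rw [← h2, Finsupp.degree_eq_weight_one]
      rfl
    by_cases hall : ∀ i, s i < M + 1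
    · have h3 : (monomial s) (p.coeff s) =
          aeval l (C (p.coeff s) : MvPolynomial τ ℂ) *
            ∏ i, (X i : MvPolynomial σ ℂ) ^ ((⟨s i, hall i⟩ : Fin (M + 1)) : ℕ) := by
        rw [MvPolynomial.monomial_eq, Finsupp.prod_fintype _ _ (by simp)]
        simp
      rw [h3, ← hsmul]
      exact Submodule.smul_mem _ _ (Submodule.subset_span ⟨fun i => ⟨s i, hall i⟩, rfl⟩)
    · push Not at hall
      obtain ⟨i, hi⟩ := hall
      obtain ⟨a, ha, q, hq, haq⟩ := hred i
      have h4 : (monomial s) (p.coeff s) =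
          (X i : MvPolynomial σ ℂ) ^ (M + 1) *
            (monomial (s - Finsupp.single i (M + 1))) (p.coeff s) := by
        rw [MvPolynomial.X_pow_eq_monomial, MvPolynomial.monomial_mul, one_mul]
        congr 1
        rw [add_tsub_cancel_of_le]
        rw [Finsupp.single_le_iff]
        exact hi
      have h5 : (Ideal.Quotient.mk I) ((monomial s) (p.coeff s)) =
          ∑ j, (X j : MvPolynomial τ ℂ) • (Ideal.Quotient.mk I)
            (q j * (monomial (s - Finsupp.single i (M + 1))) (p.coeff s)) := by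
        rw [h4, haq, add_mul, map_add, Ideal.Quotient.eq_zero_iff_mem.2 (I.mul_mem_right _ ha),
          zero_add, Finset.sum_mul, map_sum]
        refine Finset.sum_congr rfl fun j _ => ?_
        rw [hsmul, aeval_X]
        congr 1
        ring
      rw [h5]
      refine Submodule.sum_mem _ fun j _ => Submodule.smul_mem _ _ ?_
      have h6 : (s - Finsupp.single i (M + 1)).degree + (M + 1) = n := by
        rw [← hdeg]
        have h7 : s - Finsupp.single i (M + 1) + Finsupp.single i (M + 1) = s := by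
          rw [tsub_add_cancel_of_le]
          rw [Finsupp.single_le_iff]
          exact hi
        conv_rhs => rw [← h7]
        rw [map_add, Finsupp.degree_single]
      refine ih (M + (s - Finsupp.single i (M + 1)).degree) (by omega) _ ?_
      exact (hq j).mul (isHomogeneous_monomial _ rfl)

/-- if the powers of the variables lie in `I + (l)`, then the coordinate ring is integral over the
polynomials in `l`, so its dimension is at most the number of the `l` -/
theorem dim_le (hI : ∀ f ∈ I, ∀ j, homogeneousComponent j f ∈ I)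
    (hl : ∀ j, (l j).IsHomogeneous 1) (M : ℕ)
    (hM : ∀ i : σ, (X i : MvPolynomial σ ℂ) ^ (M + 1) ∈ I ⊔ Ideal.span (Set.range l)) :
    ringKrullDim (MvPolynomial σ ℂ ⧸ I) ≤ (Fintype.card τ : WithBot ℕ∞) := by
  letI := (phi0 I l).toAlgebra
  have hfin : Module.Finite (MvPolynomial τ ℂ) (MvPolynomial σ ℂ ⧸ I) := by
    refine ⟨⟨(Set.finite_range fun u : σ → Fin (M + 1) =>
          Ideal.Quotient.mk I (∏ i, (X i : MvPolynomial σ ℂ) ^ (u i : ℕ))).toFinset, ?_⟩⟩
    rw [Set.Finite.coe_toFinset, eq_top_iff]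
    rintro x -
    obtain ⟨f, rfl⟩ := Ideal.Quotient.mk_surjective x
    rw [← sum_homogeneousComponent f, map_sum]
    refine Submodule.sum_mem _ fun j _ => ?_
    exact mem_span_of_homogeneous I l hI hl M hM j _ (homogeneousComponent_isHomogeneous _ _)
  have hint : Algebra.IsIntegral (MvPolynomial τ ℂ) (MvPolynomial σ ℂ ⧸ I) :=
    Algebra.IsIntegral.of_finite _ _
  have h1 : ringKrullDim (MvPolynomial σ ℂ ⧸ I) ≤ ringKrullDim (MvPolynomial τ ℂ) := by
    refine Order.krullDim_le_of_strictMono
      (fun P : PrimeSpectrum (MvPolynomial σ ℂ ⧸ I) =>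
        PrimeSpectrum.comap (algebraMap (MvPolynomial τ ℂ) (MvPolynomial σ ℂ ⧸ I)) P) ?_
    intro P Q hPQ
    have := P.isPrime
    exact Ideal.IsIntegral.comap_lt_comap hPQ
  refine h1.trans ?_
  rw [MvPolynomial.ringKrullDim_of_isNoetherianRing, ringKrullDim_eq_zero_of_field]
  simp

end

/-- MAIN: cones of codimension at most `k` meet linear spaces of dimension `k + 1` -/
theorem cone_meets {σ : Type} [Fintype σ] (I : Ideal (MvPolynomial σ ℂ))
    (hI : ∀ f ∈ I, ∀ j, homogeneousComponent j f ∈ I) (k : ℕ)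
    (hdim : (Fintype.card σ : WithBot ℕ∞) ≤ ringKrullDim (MvPolynomial σ ℂ ⧸ I) + (k : WithBot ℕ∞))
    (A : Fin (k + 1) → σ → ℂ) (hA : LinearIndependent ℂ A) :
    ∃ c : Fin (k + 1) → ℂ, c ≠ 0 ∧ ∀ f ∈ I, eval (∑ i, c i • A i) f = 0 := by
  classical
  by_contra hcon
  push Not at hcon
  set W : Submodule ℂ (σ → ℂ) := Submodule.span ℂ (Set.range A) with hW
  have hWd : Module.finrank ℂ W = k + 1 := by
    rw [hW, finrank_span_eq_card hA, Fintype.card_fin]
  have hWN : Module.finrank ℂ ((σ → ℂ) ⧸ W) + (k + 1) = Fintype.card σ := by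
    have := Submodule.finrank_quotient_add_finrank W
    rw [hWd, Module.finrank_fintype_fun_eq_card] at this
    exact this
  set r := Module.finrank ℂ ((σ → ℂ) ⧸ W) with hr
  let e : ((σ → ℂ) ⧸ W) ≃ₗ[ℂ] (Fin r → ℂ) :=
    LinearEquiv.ofFinrankEq _ _ (by rw [Module.finrank_fin_fun])
  let L : (σ → ℂ) →ₗ[ℂ] (Fin r → ℂ) := e.toLinearMap.comp W.mkQ
  have hL : ∀ x, L x = 0 → x ∈ W := by
    intro x hx
    have h1 : e (W.mkQ x) = 0 := hx
    rw [LinearEquiv.map_eq_zero_iff] at h1
    exact (Submodule.Quotient.mk_eq_zero W).1 h1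
  let l : Fin r → MvPolynomial σ ℂ := fun j => ∑ i, C (L (Pi.single i 1) j) * X i
  have hl : ∀ j, (l j).IsHomogeneous 1 := by
    intro j
    refine IsHomogeneous.sum _ _ _ fun i _ => ?_
    have := (isHomogeneous_C σ (L (Pi.single i 1) j)).mul (isHomogeneous_X ℂ i)
    rwa [zero_add] at this
  have hlx : ∀ j x, eval x (l j) = L x j := by
    intro j x
    have h1 : L x = ∑ i, x i • L (Pi.single i 1) := by
      conv_lhs => rw [pi_eq_sum_univ x, map_sum]
      refine Finset.sum_congr rfl fun i _ => ?_
      rw [map_smul]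
      congr 2
      funext t
      rw [Pi.single_apply]
      simp only [eq_comm]
    rw [h1, Finset.sum_apply]
    simp only [l, map_sum, map_mul, eval_C, eval_X, Pi.smul_apply, smul_eq_mul]
    exact Finset.sum_congr rfl fun i _ => mul_comm _ _
  -- Nullstellensatz
  have hrad : ∀ i : σ, (X i : MvPolynomial σ ℂ) ∈ (I ⊔ Ideal.span (Set.range l)).radical := by
    intro i
    rw [← vanishingIdeal_zeroLocus_eq_radical (K := ℂ), mem_vanishingIdeal_iff]
    intro x hx
    rw [mem_zeroLocus_iff] at hx
    have hxW : x ∈ W := by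
      apply hL
      funext j
      rw [← hlx]
      have := hx (l j) (Ideal.mem_sup_right (Ideal.subset_span ⟨j, rfl⟩))
      simpa [aeval_eq_eval] using this
    obtain ⟨c, hc⟩ := (Submodule.mem_span_range_iff_exists_fun ℂ).1 hxW
    by_cases hc0 : c = 0
    · rw [← hc, hc0]
      simp
    · obtain ⟨f, hf, hf0⟩ := hcon c hc0
      exfalso
      apply hf0
      rw [hc]
      have := hx f (Ideal.mem_sup_left hf)
      simpa [aeval_eq_eval] using this
  have hM : ∃ M : ℕ, ∀ i : σ,
      (X i : MvPolynomial σ ℂ) ^ (M + 1) ∈ I ⊔ Ideal.span (Set.range l) := by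
    choose m hm using hrad
    refine ⟨∑ i, m i, fun i => ?_⟩
    have h1 : m i ≤ ∑ i, m i := Finset.single_le_sum (fun _ _ => Nat.zero_le _) (Finset.mem_univ i)
    exact Ideal.pow_mem_of_pow_mem _ (hm i) (by omega)
  obtain ⟨M, hM⟩ := hM
  have h1 := dim_le I l hI hl M hM
  rw [Fintype.card_fin] at h1
  have h2 : (Fintype.card σ : WithBot ℕ∞) ≤ (r : WithBot ℕ∞) + (k : WithBot ℕ∞) :=
    hdim.trans (add_le_add_left h1 _)
  rw [← hWN] at h2
  have h3 : r + (k + 1) ≤ r + k := by exact_mod_cast h2
  omega

end Pool.Agent.H8.RK
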