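import Pool.Agent.H8.RK.Cone

/-!
# Linear systems of hyperbolic forms and algebraic sets of small codimension (polynomial form)

`Mon m d`: the monomials of degree `d` in `m` variables; the forms of degree `d` are the points of
`Mon m d → ℂ` (their coefficients).
-/

set_option autoImplicit false

namespace Pool.Agent.H8.RK

open MvPolynomial

/-- exponents of the monomials of degree `d` in `m` variables -/
abbrev Mon (m d : ℕ) := ↥(Finset.finsuppAntidiag (Finset.univ : Finset (Fin m)) d)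

theorem mem_mon {m d : ℕ} (u : Fin m →₀ ℕ) :
    u ∈ Finset.finsuppAntidiag (Finset.univ : Finset (Fin m)) d ↔ u.degree = d := by
  rw [Finset.mem_finsuppAntidiag]
  constructor
  · rintro ⟨h, -⟩
    rw [Finsupp.degree_eq_sum]
    exact h
  · intro h
    rw [Finsupp.degree_eq_sum] at h
    exact ⟨h, Finset.subset_univ _⟩

/-- a form with zero coefficient vector is zero -/
theorem eq_zero_of_coeff {m d : ℕ} {F : MvPolynomial (Fin m) ℂ} (hF : F.IsHomogeneous d)
    (h : ∀ α : Mon m d, F.coeff α.1 = 0) : F = 0 := by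
  ext u
  rw [coeff_zero]
  by_cases hu : u.degree = d
  · exact h ⟨u, (mem_mon u).2 hu⟩
  · by_contra hne
    apply hu
    have h2 := hF hne
    rw [← h2, Finsupp.degree_eq_weight_one]
    rfl

/-- the hypersurface `F = 0` of projective space contains no non constant entire curve -/
def HypP {m : ℕ} (F : MvPolynomial (Fin m) ℂ) : Prop :=
  ∀ g : ℂ → (Fin m → ℂ), Differentiable ℂ g → (∀ z, g z ≠ 0) →
    (∀ z, eval (g z) F = 0) → ∀ z, ∃ c : ℂ, g z = c • g 0

theorem not_hypP_zero (n : ℕ) : ¬ HypP (0 : MvPolynomial (Fin (n + 2)) ℂ) := by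
  intro h
  have h1 := h (fun z i => if i = 0 then 1 else z) ?_ ?_ ?_ 1
  · obtain ⟨c, hc⟩ := h1
    have h2 := congrFun hc 0
    have h3 := congrFun hc 1
    simp at h3
  · rw [differentiable_pi]
    intro i
    by_cases hi : i = 0
    · simp [hi]
    · simp [hi]
  · intro z hz
    have := congrFun hz 0
    simp at this
  · intro z
    simp

/-- a cone of codimension at most `k` in the space of forms meets every linear system all of
whose `k + 1` generators are independent -/
theorem ideal_meets {m d k : ℕ} (S : Fin (k + 1) → MvPolynomial (Fin m) ℂ)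
    (hS : ∀ i, (S i).IsHomogeneous d) (hind : ∀ l : Fin (k + 1) → ℂ, l ≠ 0 → ∑ i, l i • S i ≠ 0)
    (I : Ideal (MvPolynomial (Mon m d) ℂ))
    (hI : ∀ f ∈ I, ∀ j, homogeneousComponent j f ∈ I)
    (hdim : (Fintype.card (Mon m d) : WithBot ℕ∞) ≤
      ringKrullDim (MvPolynomial (Mon m d) ℂ ⧸ I) + (k : WithBot ℕ∞)) :
    ∃ l : Fin (k + 1) → ℂ, l ≠ 0 ∧
      ∀ f ∈ I, eval (fun α : Mon m d => (∑ i, l i • S i).coeff α.1) f = 0 := by
  have hhom : ∀ l : Fin (k + 1) → ℂ, (∑ i, l i • S i).IsHomogeneous d := by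
    intro l
    have h1 : ∑ i, l i • S i ∈ homogeneousSubmodule (Fin m) ℂ d :=
      Submodule.sum_mem _ fun i _ => Submodule.smul_mem _ _ (hS i)
    exact h1
  have hv : ∀ l : Fin (k + 1) → ℂ, (∑ i, l i • fun α : Mon m d => (S i).coeff α.1) =
      fun α : Mon m d => (∑ i, l i • S i).coeff α.1 := by
    intro l
    funext α
    rw [Finset.sum_apply, coeff_sum]
    exact Finset.sum_congr rfl fun i _ => by rw [Pi.smul_apply, coeff_smul]
  have hlin : LinearIndependent ℂ (fun i => fun α : Mon m d => (S i).coeff α.1) := by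
    rw [Fintype.linearIndependent_iff]
    intro l hl i
    by_contra hli
    have h0 : l ≠ 0 := fun h => hli (by rw [h]; rfl)
    apply hind l h0
    apply eq_zero_of_coeff (hhom l)
    intro α
    rw [hv] at hl
    exact congrFun hl α
  obtain ⟨l, hl, hz⟩ := cone_meets I hI k hdim _ hlin
  refine ⟨l, hl, fun f hf => ?_⟩
  rw [← hv]
  exact hz f hf

/-- if all non zero members of a linear system of dimension `k + 1` are hyperbolic, then every
homogeneous ideal of codimension at most `k` has a hyperbolic zero -/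
theorem ideal_of_family {n d k : ℕ} (S : Fin (k + 1) → MvPolynomial (Fin (n + 2)) ℂ)
    (hS : ∀ i, (S i).IsHomogeneous d)
    (hyp : ∀ l : Fin (k + 1) → ℂ, l ≠ 0 → HypP (∑ i, l i • S i))
    (I : Ideal (MvPolynomial (Mon (n + 2) d) ℂ))
    (hI : ∀ f ∈ I, ∀ j, homogeneousComponent j f ∈ I)
    (hdim : (Fintype.card (Mon (n + 2) d) : WithBot ℕ∞) ≤
      ringKrullDim (MvPolynomial (Mon (n + 2) d) ℂ ⧸ I) + (k : WithBot ℕ∞)) :
    ∃ F : MvPolynomial (Fin (n + 2)) ℂ, F.IsHomogeneous d ∧ F ≠ 0 ∧ HypP F ∧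
      ∀ f ∈ I, eval (fun α : Mon (n + 2) d => F.coeff α.1) f = 0 := by
  obtain ⟨l, hl, hz⟩ := ideal_meets S hS
    (fun l hl h0 => not_hypP_zero n (by rw [← h0]; exact hyp l hl)) I hI hdim
  refine ⟨∑ i, l i • S i, ?_, fun h0 => not_hypP_zero n (by rw [← h0]; exact hyp l hl),
    hyp l hl, hz⟩
  have h1 : ∑ i, l i • S i ∈ homogeneousSubmodule (Fin (n + 2)) ℂ d :=
    Submodule.sum_mem _ fun i _ => Submodule.smul_mem _ _ (hS i)
  exact h1

end Pool.Agent.H8.RK
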