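import Pool.Agent.H48.RK.Defs

/-!
# Random hypersurfaces: the kernel of the weighted monomials (module KOS)

`kernel`: `∑ α, phi z α * conj (phi w α) = (∑ i, z i * conj (w i)) ^ d` (multinomial theorem);
`formSmul`: forms of degree `d` are homogeneous; `formDiff`: they are differentiable.
-/

set_option autoImplicit false

namespace Pool.Agent.H8.RK

open Pool.Agent.H48.RK
open scoped BigOperators ComplexConjugate

theorem phi_mul_conj {m d : ℕ} (z w : Fin m → ℂ) (α : Idx m d) :
    phi z α * conj (phi w α) =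
      (Nat.multinomial Finset.univ α.1 : ℂ) * ∏ i, (z i * conj (w i)) ^ α.1 i := by
  have h0 : (0 : ℝ) ≤ (Nat.multinomial Finset.univ α.1 : ℝ) := Nat.cast_nonneg _
  have h1 : ((Real.sqrt (Nat.multinomial Finset.univ α.1 : ℝ) : ℝ) : ℂ) *
      ((Real.sqrt (Nat.multinomial Finset.univ α.1 : ℝ) : ℝ) : ℂ) =
      (Nat.multinomial Finset.univ α.1 : ℂ) := by
    rw [← Complex.ofReal_mul, Real.mul_self_sqrt h0, Complex.ofReal_natCast]
  simp only [phi, map_mul, map_prod, map_pow, Complex.conj_ofReal, mul_pow, Finset.prod_mul_distrib]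
  rw [← h1]
  ring

theorem kernel : Kernel := by
  intro m d z w
  rw [Finset.sum_pow_eq_sum_piAntidiag, ← Finset.sum_coe_sort (Finset.piAntidiag Finset.univ d)
    (fun k : Fin m → ℕ => (Nat.multinomial Finset.univ k : ℂ) * ∏ i, (z i * conj (w i)) ^ k i)]
  exact Finset.sum_congr rfl fun α _ => phi_mul_conj z w α

/-- the norm square of the vector of weighted monomials -/
theorem sum_norm_sq {m d : ℕ} (z : Fin m → ℂ) :
    ∑ α : Idx m d, ‖phi z α‖ ^ 2 = (∑ i, ‖z i‖ ^ 2) ^ d := by
  have h := kernel m d z z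
  simp only [Complex.mul_conj, Complex.normSq_eq_norm_sq] at h
  exact_mod_cast h

/-- Gram entries of the weighted monomials -/
theorem norm_gram {m d : ℕ} (z w : Fin m → ℂ) :
    ‖∑ α : Idx m d, phi z α * conj (phi w α)‖ = ‖∑ i, z i * conj (w i)‖ ^ d := by
  rw [kernel, norm_pow]

theorem phi_smul {m d : ℕ} (c : ℂ) (z : Fin m → ℂ) (α : Idx m d) :
    phi (c • z) α = c ^ d * phi z α := by
  have hα : ∑ i, α.1 i = d := (Finset.mem_piAntidiag.1 α.2).1
  simp only [phi, Pi.smul_apply, smul_eq_mul, mul_pow, Finset.prod_mul_distrib]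
  rw [Finset.prod_pow_eq_pow_sum, hα]
  ring

theorem formSmul : FormSmul := by
  intro m d a c z
  simp only [form, phi_smul, Finset.mul_sum]
  exact Finset.sum_congr rfl fun α _ => by ring

theorem phi_diff {m d : ℕ} (α : Idx m d) : Differentiable ℂ (fun z : E m => phi z.ofLp α) := by
  unfold phi
  refine Differentiable.const_mul ?_ _
  intro z
  have h : ∀ i ∈ (Finset.univ : Finset (Fin m)),
      DifferentiableAt ℂ (fun z : E m => z.ofLp i ^ α.1 i) z := fun i _ =>
    DifferentiableAt.pow
      ((EuclideanSpace.proj i : E m →L[ℂ] ℂ).differentiable z) _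
  exact (HasFDerivAt.finsetProd fun i hi => (h i hi).hasFDerivAt).differentiableAt

theorem formDiff : FormDiff := by
  intro m d a
  unfold form
  exact Differentiable.fun_sum fun α _ => (phi_diff α).const_mul _

/-- forms are bounded by the norm of the coefficient vector -/
theorem norm_form_le {m d : ℕ} (a : Idx m d → ℂ) (z : Fin m → ℂ) :
    ‖form a z‖ ≤ Real.sqrt (∑ α, ‖a α‖ ^ 2) * Real.sqrt ((∑ i, ‖z i‖ ^ 2) ^ d) := by
  unfold form
  refine (norm_sum_le _ _).trans ?_
  simp only [norm_mul]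
  rw [← sum_norm_sq]
  exact Real.sum_mul_le_sqrt_mul_sqrt _ _ _

end Pool.Agent.H8.RK
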