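import Pool.Agent.H48.RK.DefsL
import Pool.Agent.H8.RK.Cone

/-!
# Projective algebraic sets of codimension at most `c d` contain hyperbolic hypersurfaces
-/

set_option autoImplicit false

namespace Pool.Agent.H8.RK

open MeasureTheory Metric Set Pool.Agent.H48.RK
open scoped BigOperators ComplexConjugate

/-- ALGDIM: every algebraic set of codimension at most `k`, `k + 1 ≤ c d`, in the projective space
of hypersurfaces of degree `d` contains a hyperbolic hypersurface.  The set is given by an ideal `I`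
closed under homogeneous components (a homogeneous ideal); its cone has dimension
`ringKrullDim (ℂ[x] / I)`, so codimension `≤ k` is `card ≤ ringKrullDim (ℂ[x] / I) + k`. -/
def AlgDim : Prop := ∃ C c : ℝ, 0 < C ∧ 0 < c ∧ ∀ n d k : ℕ, 1 ≤ n →
  C * (n + 2) * Real.log (n + 2) ≤ d → ((k : ℝ) + 1) ≤ c * d →
  ∀ I : Ideal (MvPolynomial (Idx (n + 2) d) ℂ),
    (∀ f ∈ I, ∀ j, MvPolynomial.homogeneousComponent j f ∈ I) →
    (Fintype.card (Idx (n + 2) d) : WithBot ℕ∞) ≤
      ringKrullDim (MvPolynomial (Idx (n + 2) d) ℂ ⧸ I) + (k : WithBot ℕ∞) →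
    ∃ a : Idx (n + 2) d → ℂ, Hyp a ∧ ∀ f ∈ I, MvPolynomial.eval a f = 0

/-- the zero form is not hyperbolic -/
theorem not_hyp_zero (n d : ℕ) : ¬ Hyp (0 : Idx (n + 2) d → ℂ) := by
  rintro ⟨-, h⟩
  have h1 := h (fun z i => if i = 0 then 1 else z) ?_ ?_ ?_ 1
  · obtain ⟨c, hc⟩ := h1
    have h2 := congrFun hc 0
    have h3 := congrFun hc 1
    simp at h3
  · rw [differentiable_pi]
    intro i
    by_cases hi : i = 0
    · simp [hi]
    · simp [hi]
  · intro z hz
    have := congrFun hz 0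
    simp at this
  · intro z
    simp [form]

theorem algDim (hU : GamUniv) (hL : TheoremL) (hB : BadToD) : AlgDim := by
  obtain ⟨C, c, hC, hc, h1⟩ := hL
  refine ⟨C, c, hC, hc, fun n d k hn hd hk I hI hdim => ?_⟩
  have hn0 : (0 : ℝ) < (n : ℝ) + 2 := by positivity
  have hd0 : (0 : ℝ) < d := by
    have hlog : 0 < Real.log ((n : ℝ) + 2) := Real.log_pos (by
      have : (0 : ℝ) ≤ n := Nat.cast_nonneg n
      linarith)
    exact lt_of_lt_of_le (by positivity) hd
  have h2 := h1 n d k hn hd hk (fun _ _ => 0) (fun i z _ => by simp [form]) 1 (by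
    rw [← Real.exp_zero]
    apply Real.exp_le_exp.2
    apply div_nonpos_of_nonpos_of_nonneg _ hn0.le
    nlinarith)
  obtain ⟨a, ha⟩ : ∃ a : Fin (k + 1) × Idx (n + 2) d → ℂ,
      ¬ BadL (fun i α => (0 : ℂ) + ((1 : ℝ) : ℂ) * a (i, α)) := by
    by_contra hcon
    push Not at hcon
    have huniv : {a : Fin (k + 1) × Idx (n + 2) d → ℂ |
        BadL (fun i α => (0 : ℂ) + ((1 : ℝ) : ℂ) * a (i, α))} = univ := eq_univ_of_forall hcon
    rw [huniv, hU, ← ENNReal.ofReal_one, ENNReal.ofReal_le_ofReal_iff (Real.exp_pos _).le] at h2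
    have h3 : Real.exp (-c * (d : ℝ) ^ 2 / (n + 2)) < 1 := by
      rw [← Real.exp_zero]
      apply Real.exp_lt_exp.2
      apply div_neg_of_neg_of_pos _ hn0
      have : 0 < (d : ℝ) ^ 2 := by positivity
      nlinarith
    linarith
  set A : Fin (k + 1) → Idx (n + 2) d → ℂ := fun i α => (0 : ℂ) + ((1 : ℝ) : ℂ) * a (i, α) with hA
  have hgood : ∀ l : Fin (k + 1) → ℂ, l ≠ 0 → Hyp (∑ i, l i • A i) := by
    intro l hl
    by_contra hh
    exact ha ⟨l, hl, not_hyp_le hB hh⟩
  have hind : LinearIndependent ℂ A := by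
    rw [Fintype.linearIndependent_iff]
    intro l hl i
    by_contra hli
    have h3 := hgood l (fun h => hli (by rw [h]; rfl))
    rw [hl] at h3
    exact not_hyp_zero n d h3
  obtain ⟨l, hl, hz⟩ := cone_meets I hI k hdim A hind
  exact ⟨∑ i, l i • A i, hgood l hl, hz⟩

end Pool.Agent.H8.RK
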