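import Pool.Agent.H8.RK.FinS
import Pool.Agent.H97.LS.Fam
import Pool.Agent.H97.LS.Dat

/-!
# Theorem S from the core of the tower
-/

set_option autoImplicit false

namespace Pool.Agent.H8.RK

open Pool.Agent.H97.HY Pool.Agent.H97.LS Pool.Agent.H32.LD

/-- the core: a winning tower gives linear systems without B-curves -/
def CoreW : Prop := ∀ N D d R : ℕ, 2 ≤ N → 1 ≤ R → ∀ T : Tw N (3 * N) D d, WinS R T →
  ∃ S : Fin R → MvPolynomial (Fin (N + 1)) ℂ, (∀ r, (S r).IsHomogeneous d) ∧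
    ∀ lam : Fin R → ℂ, ‖lam‖ = 1 → ¬ Hits (mem S lam)

theorem coreS (h : CoreW) : CoreS := by
  intro N K R d hN hR hk hd
  obtain ⟨T, hT⟩ := exists_twS hN hR hk hd
  obtain ⟨S, hS, hh⟩ := h N (7 + K) d R hN hR T hT
  refine ⟨S, hS, fun l hl hhit => ?_⟩
  have hl0 : ‖l‖ ≠ 0 := norm_ne_zero_iff.2 hl
  have h1 : mem S l = ∑ i, l i • S i := by
    unfold mem
    exact Finset.sum_congr rfl fun r _ => by rw [MvPolynomial.smul_eq_C_mul]
  rw [← h1] at hhit
  refine hh (((‖l‖⁻¹ : ℝ) : ℂ) • l) ?_ (hits_smul S l hhit)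
  rw [norm_smul, Complex.norm_real, norm_inv, norm_norm]
  exact inv_mul_cancel₀ hl0

theorem theoremS_of_core (h : CoreW) : TheoremS := theoremS (coreS h)

end Pool.Agent.H8.RK
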