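import Pool.Agent.H8.RK.AlgS
import Pool.Agent.H97.HY.Bro
import Pool.Agent.H97.HY.Smo
import Pool.Agent.H97.HY.Sta

/-!
# Theorem S: open sets of linear systems, final form

From the existence of linear systems without B-curves (`CoreS`) to the final statement.
-/

open Metric Set Filter Topology

set_option autoImplicit false

namespace Pool.Agent.H8.RK

open Pool.Agent.H97.HY

/-- the core of Theorem S: linear systems of dimension `R` without B-curves -/
def CoreS : Prop := ∀ N K R d : ℕ, 2 ≤ N → 1 ≤ R → 7 * (R - 1) ≤ N * K → 3 * N * (8 + K) ≤ d →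
  ∃ S : Fin R → MvPolynomial (Fin (N + 1)) ℂ, (∀ i, (S i).IsHomogeneous d) ∧
    ∀ l : Fin R → ℂ, l ≠ 0 → ¬ Hits (∑ i, l i • S i)

theorem sum_hom {m R d : ℕ} {S : Fin R → MvPolynomial (Fin m) ℂ}
    (hS : ∀ i, (S i).IsHomogeneous d) (l : Fin R → ℂ) : (∑ i, l i • S i).IsHomogeneous d := by
  have h1 : ∑ i, l i • S i ∈ MvPolynomial.homogeneousSubmodule (Fin m) ℂ d :=
    Submodule.sum_mem _ fun i _ => Submodule.smul_mem _ _ (hS i)
  exact h1

/-- the property `no member has a B-curve` is open -/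
theorem open_family {N d R : ℕ} {S : Fin R → MvPolynomial (Fin (N + 1)) ℂ}
    (hS : ∀ i, (S i).IsHomogeneous d) (h : ∀ l : Fin R → ℂ, l ≠ 0 → ¬ Hits (∑ i, l i • S i)) :
    ∃ ε > 0, ∀ F : Fin R → MvPolynomial (Fin (N + 1)) ℂ, (∀ i, (F i).IsHomogeneous d) →
      (∀ i m, ‖(F i).coeff m - (S i).coeff m‖ < ε) →
      ∀ l : Fin R → ℂ, l ≠ 0 → ¬ Hits (∑ i, l i • F i) := by
  by_contra hcon
  have hall : ∀ k : ℕ, ∃ F : Fin R → MvPolynomial (Fin (N + 1)) ℂ,
      (∀ i, (F i).IsHomogeneous d) ∧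
      (∀ i m, ‖(F i).coeff m - (S i).coeff m‖ < 1 / ((k : ℝ) + 1)) ∧
      ∃ l : Fin R → ℂ, ‖l‖ = 1 ∧ Hits (∑ i, l i • F i) := by
    intro k
    by_contra hk
    apply hcon
    refine ⟨1 / ((k : ℝ) + 1), Nat.one_div_pos_of_nat, fun F hF hc l hl hh => ?_⟩
    apply hk
    refine ⟨F, hF, hc, ((‖l‖⁻¹ : ℝ) : ℂ) • l, ?_, ?_⟩
    · rw [norm_smul, Complex.norm_real, norm_inv, norm_norm]
      exact inv_mul_cancel₀ (norm_ne_zero_iff.2 hl)
    · obtain ⟨f, hf, hf0⟩ := hh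
      refine ⟨f, hf, fun z => ?_⟩
      have h1 : (∑ i, (((‖l‖⁻¹ : ℝ) : ℂ) • l) i • F i) =
          ((‖l‖⁻¹ : ℝ) : ℂ) • ∑ i, l i • F i := by
        rw [Finset.smul_sum]
        exact Finset.sum_congr rfl fun i _ => by rw [Pi.smul_apply, smul_eq_mul, mul_smul]
      rw [h1, MvPolynomial.smul_eval, hf0, mul_zero]
  choose Fk hFk hc l hl hh using hall
  choose f hf hf0 using hh
  obtain ⟨g, hg⟩ := exists_limit_bcurve (hyperfilter ℕ) f (Eventually.of_forall hf)
  obtain ⟨l0, hl0, hlim⟩ : ∃ l0 ∈ sphere (0 : Fin R → ℂ) 1,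
      Tendsto l ((hyperfilter ℕ : Ultrafilter ℕ) : Filter ℕ) (𝓝 l0) := by
    obtain ⟨x, hx, hx2⟩ := (isCompact_sphere (0 : Fin R → ℂ) 1).ultrafilter_le_nhds
      ((hyperfilter ℕ).map l) (by
        rw [le_principal_iff]
        have h1 : ∀ᶠ k in ((hyperfilter ℕ : Ultrafilter ℕ) : Filter ℕ),
            l k ∈ sphere (0 : Fin R → ℂ) 1 := by
          refine Eventually.of_forall fun k => ?_
          rw [mem_sphere_zero_iff_norm]
          exact hl k
        exact h1)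
    exact ⟨x, hx, hx2⟩
  have hne : l0 ≠ 0 := by
    intro h0
    rw [h0, mem_sphere_zero_iff_norm, norm_zero] at hl0
    exact zero_ne_one hl0
  refine h l0 hne ⟨g, hg.bcurve, ?_⟩
  refine IsLim.eval_seq_eq_zero hg (fun z0 => Eventually.of_forall fun k => (hf k).chart z0)
    (sum_hom hS l0) (fun k => sum_hom (hFk k) (l k)) (fun m => ?_)
    (fun z => Eventually.of_forall fun k => hf0 k z)
  have h0 : Tendsto (fun k : ℕ => 1 / ((k : ℝ) + 1))
      ((hyperfilter ℕ : Ultrafilter ℕ) : Filter ℕ) (𝓝 0) :=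
    (tendsto_one_div_add_atTop_nhds_zero_nat (𝕜 := ℝ)).mono_left Nat.hyperfilter_le_atTop
  simp only [MvPolynomial.coeff_sum, MvPolynomial.coeff_smul, smul_eq_mul]
  refine tendsto_finsetSum _ fun i _ => ?_
  refine Tendsto.mul ((tendsto_pi_nhds.1 hlim) i) ?_
  rw [tendsto_iff_norm_sub_tendsto_zero]
  exact squeeze_zero (fun k => norm_nonneg _) (fun k => (hc k i m).le) h0

/-- THEOREM S with its corollary -/
def TheoremS : Prop := ∀ n : ℕ, 1 ≤ n → ∀ K k d : ℕ, 7 * k ≤ (n + 1) * K →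
  3 * (n + 1) * (8 + K) ≤ d →
  (∃ F₀ : Fin (k + 1) → MvPolynomial (Fin (n + 2)) ℂ, (∀ i, (F₀ i).IsHomogeneous d) ∧
    (∀ x : Fin (n + 2) → ℂ, x ≠ 0 → MvPolynomial.eval x (F₀ 0) = 0 →
      ∃ i, MvPolynomial.eval x (MvPolynomial.pderiv i (F₀ 0)) ≠ 0) ∧
    ∃ ε : ℝ, 0 < ε ∧ ∀ F : Fin (k + 1) → MvPolynomial (Fin (n + 2)) ℂ,
      (∀ i, (F i).IsHomogeneous d) → (∀ i m, ‖(F i).coeff m - (F₀ i).coeff m‖ < ε) →
      ∀ l : Fin (k + 1) → ℂ, l ≠ 0 → HypP (∑ i, l i • F i)) ∧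
  ∀ I : Ideal (MvPolynomial (Mon (n + 2) d) ℂ),
    (∀ f ∈ I, ∀ j, MvPolynomial.homogeneousComponent j f ∈ I) →
    (Fintype.card (Mon (n + 2) d) : WithBot ℕ∞) ≤
      ringKrullDim (MvPolynomial (Mon (n + 2) d) ℂ ⧸ I) + (k : WithBot ℕ∞) →
    ∃ F : MvPolynomial (Fin (n + 2)) ℂ, F.IsHomogeneous d ∧ F ≠ 0 ∧ HypP F ∧
      ∀ f ∈ I, MvPolynomial.eval (fun α : Mon (n + 2) d => F.coeff α.1) f = 0

theorem theoremS (h : CoreS) : TheoremS := by
  intro n hn K k d hk hd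
  obtain ⟨S, hS, hh⟩ := h (n + 1) K (k + 1) d (by omega) (by omega)
    (by rwa [Nat.add_sub_cancel]) hd
  obtain ⟨ε, hε, hopen⟩ := open_family hS hh
  have hd2 : 2 ≤ d := le_trans (by nlinarith) hd
  refine ⟨?_, fun I hI hdim => ?_⟩
  · obtain ⟨F', hF', hclose, hsm⟩ := exists_smooth_near hd2 (hS 0) (half_pos hε)
    refine ⟨Function.update S 0 F', ?_, ?_, ε / 2, half_pos hε, ?_⟩
    · intro i
      by_cases hi : i = 0
      · subst hi
        rw [Function.update_self]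
        exact hF'
      · rw [Function.update_of_ne hi]
        exact hS i
    · rw [Function.update_self]
      exact hsm
    · intro F hF hFc l hl g hg hne h0
      refine brody (sum_hom hF l) (hopen F hF ?_ l hl) g hg hne h0
      intro i m
      have h1 := hFc i m
      by_cases hi : i = 0
      · subst hi
        rw [Function.update_self] at h1
        have h2 := hclose m
        calc ‖(F 0).coeff m - (S 0).coeff m‖ =
            ‖((F 0).coeff m - F'.coeff m) + (F'.coeff m - (S 0).coeff m)‖ := by ring_nf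
          _ ≤ ‖(F 0).coeff m - F'.coeff m‖ + ‖F'.coeff m - (S 0).coeff m‖ := norm_add_le _ _
          _ < ε := by linarith
      · rw [Function.update_of_ne hi] at h1
        linarith
  · exact ideal_of_family S hS
      (fun l hl g hg hne h0 => brody (sum_hom hS l) (hh l hl) g hg hne h0) I hI hdim

end Pool.Agent.H8.RK
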